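import Pool.Agent.Helper71.SN.Goals

/-!
# Packet FQ1 for MP_9b2a83_an
-/

namespace Pool.Agent.Helper71.SN.PkFQ1

open Pool.Agent.Helper71.SN Pool.Agent.Helper39.Net

theorem const_bound (d : ℕ) (hd : 2 ≤ d) :
    (288 : ℝ) * 2 ^ d * (d : ℝ) ^ 2 ≤ 1000000 ^ d := by
  have h1 : (d : ℝ) ≤ 2 ^ d := by
    have : d < 2 ^ d := Nat.lt_two_pow_self
    exact_mod_cast this.le
  have h2 : (d : ℝ) ^ 2 ≤ 4 ^ d := by
    calc (d : ℝ) ^ 2 ≤ (2 ^ d) ^ 2 := by gcongr
      _ = 4 ^ d := by rw [← pow_mul, mul_comm, pow_mul]; norm_num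
  have h3 : (288 : ℝ) ≤ 288 ^ d := by
    calc (288 : ℝ) = 288 ^ 1 := by norm_num
      _ ≤ 288 ^ d := pow_le_pow_right₀ (by norm_num) (by omega)
  calc (288 : ℝ) * 2 ^ d * (d : ℝ) ^ 2 ≤ 288 ^ d * 2 ^ d * 4 ^ d := by gcongr
    _ = (288 * 2 * 4) ^ d := by rw [mul_pow, mul_pow]
    _ ≤ 1000000 ^ d := by
        apply pow_le_pow_left₀ <;> norm_num

theorem log_nine : Real.log 9 ≤ 4 := by
  have h : (9 : ℝ) ≤ Real.exp 4 := by
    have h1 := Real.add_one_le_exp (1 : ℝ)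
    have h2 : Real.exp 4 = Real.exp 1 ^ 4 := by rw [← Real.exp_nat_mul]; norm_num
    rw [h2]
    calc (9 : ℝ) ≤ (1 + 1) ^ 4 := by norm_num
      _ ≤ Real.exp 1 ^ 4 := by gcongr
  have := Real.log_le_log (by norm_num) h
  rwa [Real.log_exp] at this

/-- `G ≤ (6 + m) * log (d + G)` when `t ≤ 8 d x^m`, `log x ≤ log (d+G)` scale. -/
theorem G_upper (d : ℕ) (hd : 2 ≤ d) (t g M : ℝ) (ht : 0 < t) (hg : g = 1 + Real.log (1 + t))
    (hM : M = Real.log (d + g)) (m : ℕ) (x : ℝ) (hx : 1 ≤ x) (hxM : x ≤ (d + g) ^ 2)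
    (htx : t ≤ 8 * d * x ^ m) : g ≤ (6 + 2 * m) * M := by
  have hd2 : (2 : ℝ) ≤ d := by exact_mod_cast hd
  have hl : 0 ≤ Real.log (1 + t) := Real.log_nonneg (by linarith)
  have hg1 : 1 ≤ g := by linarith
  have hM1 : 1 ≤ M := by
    rw [hM]
    have h3 : Real.exp 1 ≤ d + g := by
      have := Real.exp_one_lt_d9
      linarith
    have := Real.log_le_log (Real.exp_pos 1) h3
    rwa [Real.log_exp] at this
  have hdM : Real.log d ≤ M := by
    rw [hM]
    exact Real.log_le_log (by linarith) (by linarith)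
  have hxl : Real.log x ≤ 2 * M := by
    have h2 := Real.log_le_log (by linarith) hxM
    rw [Real.log_pow] at h2
    push_cast at h2
    rw [hM]
    exact h2
  have hxm : (1 : ℝ) ≤ x ^ m := one_le_pow₀ hx
  have h1 : 1 + t ≤ 9 * (d * x ^ m) := by nlinarith
  have h2 : Real.log (1 + t) ≤ Real.log 9 + (Real.log d + m * Real.log x) := by
    have := Real.log_le_log (by linarith) h1
    rw [Real.log_mul (by norm_num) (by positivity), Real.log_mul (by positivity) (by positivity),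
      Real.log_pow] at this
    exact this
  have h9 := log_nine
  have h4 : (m : ℝ) * Real.log x ≤ m * (2 * M) := by gcongr
  nlinarith

/-- From a bound for `L^k` to the bound for `G`. -/
theorem core (k : ℕ) (t g : ℝ) (ht : 0 < t) (hg : g = 1 + Real.log (1 + t)) (C : ℝ)
    (h1 : 1 ≤ 10000 * C)
    (hlow : ∀ L : ℕ, 1 ≤ L →
      8 * ((k : ℝ) + 2) * (((L : ℝ) + (k + 2)) ^ (2 * (k + 2))) ^ (2 * (L + 1)) < t →
      (L : ℝ) ^ k ≤ 288 * 2 ^ (k + 2) * ((k : ℝ) + 2) ^ (k + 2) * C) :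
    (g / (1000000 * ((k : ℝ) + 2) ^ 2 * Real.log (k + 2 + g))) ^ k ≤
      1000000 ^ (k + 2) * C := by
  obtain ⟨d, hd⟩ : ∃ d, d = k + 2 := ⟨_, rfl⟩
  have hd2 : 2 ≤ d := by omega
  have hdr : ((k : ℝ) + 2) = d := by rw [hd]; push_cast; ring
  rw [hdr] at hlow ⊢
  rw [← hd] at hlow
  have hd2r : (2 : ℝ) ≤ d := by exact_mod_cast hd2
  have hl : 0 ≤ Real.log (1 + t) := Real.log_nonneg (by linarith)
  have hg1 : 1 ≤ g := by linarith
  obtain ⟨M, hM⟩ : ∃ M, M = Real.log (d + g) := ⟨_, rfl⟩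
  rw [← hM]
  have hM0 : 0 < M := by
    rw [hM]
    exact Real.log_pos (by linarith)
  have hC0 : 0 ≤ C := by linarith
  have hr0 : 0 ≤ g / (1000000 * (d : ℝ) ^ 2 * M) := by positivity
  have hlogt : Real.log t ≤ g := by
    have := Real.log_le_log ht (by linarith : t ≤ 1 + t)
    linarith
  -- a bound for the failing parameter
  by_cases hH1 : 8 * (d : ℝ) * ((((1 : ℕ) : ℝ) + d) ^ (2 * d)) ^ (2 * (1 + 1)) < t
  · have hex : ∃ m : ℕ, 1 ≤ m ∧
        ¬ 8 * (d : ℝ) * (((m : ℝ) + d) ^ (2 * d)) ^ (2 * (m + 1)) < t := by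
      obtain ⟨m, hm⟩ := exists_nat_gt t
      have hm0 : 1 ≤ m := by
        rcases Nat.eq_zero_or_pos m with h | h
        · rw [h] at hm
          norm_num at hm
          linarith
        · exact h
      refine ⟨m, hm0, ?_⟩
      push Not
      have h3 : (m : ℝ) + d ≤ (((m : ℝ) + d) ^ (2 * d)) ^ (2 * (m + 1)) := by
        rw [← pow_mul]
        apply le_self_pow₀
        · have : (0 : ℝ) ≤ m := by positivity
          linarith
        · positivity
      have h4 : (0 : ℝ) ≤ m := by positivity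
      nlinarith
    classical
    obtain ⟨L, hL1, hHL, hHL1⟩ : ∃ L : ℕ, 1 ≤ L ∧
        8 * (d : ℝ) * (((L : ℝ) + d) ^ (2 * d)) ^ (2 * (L + 1)) < t ∧
        t ≤ 8 * (d : ℝ) * ((((L + 1 : ℕ) : ℝ) + d) ^ (2 * d)) ^ (2 * (L + 1 + 1)) := by
      have hs := Nat.find_spec hex
      have hm := fun j => @Nat.find_min _ _ hex j
      set m := Nat.find hex with hm0
      have hm2 : 2 ≤ m := by
        rcases Nat.lt_or_ge m 2 with h | h
        · exfalso
          have : m = 1 := by omega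
          rw [this] at hs
          exact hs.2 hH1
        · exact h
      refine ⟨m - 1, by omega, ?_, ?_⟩
      · have := hm (m - 1) (by omega)
        push Not at this
        exact this (by omega)
      · have h3 := hs.2
        push Not at h3
        have e : m - 1 + 1 = m := by omega
        rw [e]
        exact h3
    have hE := hlow L hL1 hHL
    have hLr : (1 : ℝ) ≤ L := by exact_mod_cast hL1
    have hLd : ((L : ℝ) / d) ^ k ≤ 1000000 ^ d * C := by
      have hd0 : (0 : ℝ) < (d : ℝ) ^ k := by positivity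
      have hc := const_bound d hd2
      rw [div_pow, div_le_iff₀ hd0]
      calc (L : ℝ) ^ k ≤ 288 * 2 ^ d * (d : ℝ) ^ d * C := hE
        _ = (288 * 2 ^ d * (d : ℝ) ^ 2) * C * (d : ℝ) ^ k := by
            have : (d : ℝ) ^ d = (d : ℝ) ^ 2 * (d : ℝ) ^ k := by
              rw [← pow_add]
              congr 1
              omega
            rw [this]
            ring
        _ ≤ 1000000 ^ d * C * (d : ℝ) ^ k := by gcongr
    rw [← hd]
    refine le_trans ?_ hLd
    have hLg : (L : ℝ) ≤ g := by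
      have h3 : Real.exp L ≤ t := by
        have h5 : Real.exp L = Real.exp 1 ^ L := by rw [← Real.exp_nat_mul, mul_one]
        have h6 : Real.exp 1 ≤ (L : ℝ) + d := by
          have := Real.exp_one_lt_d9
          linarith
        have h7 : Real.exp 1 ^ L ≤ ((L : ℝ) + d) ^ L := by
          gcongr
        have h8 : ((L : ℝ) + d) ^ L ≤ (((L : ℝ) + d) ^ (2 * d)) ^ (2 * (L + 1)) := by
          rw [← pow_mul]
          apply pow_le_pow_right₀ (by linarith)
          nlinarith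
        have h9 : (0 : ℝ) ≤ (((L : ℝ) + d) ^ (2 * d)) ^ (2 * (L + 1)) := by positivity
        rw [h5]
        nlinarith
      have h4 := Real.log_le_log (Real.exp_pos _) h3
      rw [Real.log_exp] at h4
      linarith
    have hr : g / (1000000 * (d : ℝ) ^ 2 * M) ≤ (L : ℝ) / d := by
      have hd0 : (0 : ℝ) < d := by linarith
      rw [div_le_div_iff₀ (by positivity) hd0]
      have a3 : g ≤ (6 + 2 * ((2 * d * (2 * (L + 1 + 1)) : ℕ) : ℝ)) * M := by
        refine G_upper d hd2 t g M ht hg hM _ (((L + 1 : ℕ) : ℝ) + d) ?_ ?_ ?_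
        · push_cast
          linarith
        · push_cast
          nlinarith
        · rw [← pow_mul] at hHL1
          exact hHL1
      push_cast at a3
      have a4 : (6 + 2 * (2 * (d : ℝ) * (2 * (L + 1 + 1)))) ≤ 30 * (d * L) := by
        nlinarith
      have a5 : g ≤ 30 * (d * L) * M := a3.trans (by gcongr)
      calc g * d ≤ 30 * (d * L) * M * d := by gcongr
        _ = 30 * (L * (d ^ 2 * M)) := by ring
        _ ≤ 1000000 * (L * (d ^ 2 * M)) := by
            have : 0 ≤ (L : ℝ) * (d ^ 2 * M) := by positivity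
            linarith
        _ = L * (1000000 * d ^ 2 * M) := by ring
    gcongr
  · push Not at hH1
    have hr : g / (1000000 * (d : ℝ) ^ 2 * M) ≤ 1 := by
      rw [div_le_one (by positivity)]
      have a3 : g ≤ (6 + 2 * ((2 * d * (2 * (1 + 1)) : ℕ) : ℝ)) * M := by
        refine G_upper d hd2 t g M ht hg hM _ (((1 : ℕ) : ℝ) + d) ?_ ?_ ?_
        · push_cast
          linarith
        · push_cast
          nlinarith
        · rw [← pow_mul] at hH1
          exact hH1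
      push_cast at a3
      have a4 : (6 + 2 * (2 * (d : ℝ) * (2 * (1 + 1)))) ≤ 1000000 * (d : ℝ) ^ 2 := by
        nlinarith
      refine a3.trans (mul_le_mul_of_nonneg_right ?_ hM0.le)
      linarith
    have hrk : (g / (1000000 * (d : ℝ) ^ 2 * M)) ^ k ≤ 1 := pow_le_one₀ hr0 hr
    have hA : (10000 : ℝ) ≤ 1000000 ^ (k + 2) := by
      calc (10000 : ℝ) ≤ 1000000 ^ 1 := by norm_num
        _ ≤ 1000000 ^ (k + 2) := pow_le_pow_right₀ (by norm_num) (by omega)
    calc (g / (1000000 * (d : ℝ) ^ 2 * M)) ^ k ≤ 1 := hrk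
      _ ≤ 10000 * C := h1
      _ ≤ 1000000 ^ (k + 2) * C := by gcongr

/-- From `EN` to `CN`. -/
theorem toCN {E : Type} {ρ : E → E → ℝ} {c : ℝ} (hb : BddAbove (Ratios ρ c)) (k b L : ℕ)
    (hN : 2 ≤ b ^ L) (D : ℝ) (hD : 0 ≤ D) (h : (b : ℝ) ^ L * (L : ℝ) ^ k ≤ D * EN ρ (b ^ L) c) :
    (L : ℝ) ^ k ≤ D * CN ρ c := by
  have h1 : (EN ρ (b ^ L) c : ℝ) / ((b ^ L : ℕ) : ℝ) ≤ CN ρ c := le_csSup hb ⟨b ^ L, hN, rfl⟩
  have h0 : (0 : ℝ) < ((b ^ L : ℕ) : ℝ) := by
    have : 0 < b ^ L := by omega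
    exact_mod_cast this
  rw [div_le_iff₀ h0] at h1
  have h2 : (b : ℝ) ^ L = ((b ^ L : ℕ) : ℝ) := by push_cast; rfl
  rw [h2] at h
  have h3 : ((b ^ L : ℕ) : ℝ) * (L : ℝ) ^ k ≤ ((b ^ L : ℕ) : ℝ) * (D * CN ρ c) := by
    calc _ ≤ D * EN ρ (b ^ L) c := h
      _ ≤ D * (CN ρ c * ((b ^ L : ℕ) : ℝ)) := by gcongr
      _ = _ := by ring
  exact le_of_mul_le_mul_left h3 h0

theorem thm : G_LOW → G_FQ1 := by
  intro hL
  refine ⟨1000000, by norm_num, fun k c hc => ?_⟩
  have hc0 : 0 < c - 1 := by linarith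
  have ht : 0 < 1 / (c - 1) := by positivity
  have key : ∀ L : ℕ, 1 ≤ L →
      8 * ((k : ℝ) + 2) * (((L : ℝ) + (k + 2)) ^ (2 * (k + 2))) ^ (2 * (L + 1)) < 1 / (c - 1) →
      (L : ℝ) ^ k ≤ 288 * 2 ^ (k + 2) * ((k : ℝ) + 2) ^ (k + 2) * CN (dOne (d := k + 2)) c ∧
      (L : ℝ) ^ k ≤ 288 * 2 ^ (k + 2) * ((k : ℝ) + 2) ^ (k + 2) * CN (dInf (d := k + 2)) c := by
    intro L hL1 hlt
    obtain ⟨b, hb⟩ : ∃ b : ℕ, b = (L + (k + 2)) ^ (2 * (k + 2)) := ⟨_, rfl⟩
    have hb2 : 2 ≤ b := by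
      rw [hb]
      calc 2 ≤ L + (k + 2) := by omega
        _ ≤ _ := Nat.le_self_pow (by omega) _
    have hN : 2 ≤ b ^ L := hb2.trans (Nat.le_self_pow (by omega) _)
    have hbr : (b : ℝ) = ((L : ℝ) + (k + 2)) ^ (2 * (k + 2)) := by
      rw [hb]; push_cast; ring
    have hcond : (c - 1) * (8 * (k + 2) * (b : ℝ) ^ (2 * (L + 1))) < 1 := by
      rw [hbr]
      rw [lt_div_iff₀ hc0] at hlt
      linarith
    obtain ⟨e1, e2⟩ := hL k b L hL1 hb.ge (b ^ L) le_rfl c hc.le hcond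
    exact ⟨toCN (bdd_one (k + 1) c hc) k b L hN _ (by positivity) e1,
      toCN (bdd_inf (k + 1) c hc) k b L hN _ (by positivity) e2⟩
  refine ⟨?_, ?_⟩
  · exact core k (1 / (c - 1)) (G c) ht rfl _
      (half_le (bdd_one (k + 1) c hc) (two_one (k + 1) c hc.le)) fun L h1 h2 => (key L h1 h2).1
  · exact core k (1 / (c - 1)) (G c) ht rfl _
      (half_le (bdd_inf (k + 1) c hc) (two_inf (k + 1) c hc.le)) fun L h1 h2 => (key L h1 h2).2

end Pool.Agent.Helper71.SN.PkFQ1
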