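import Pool.Agent.Helper71.SN.Goals

/-!
# Packet FQ2 for MP_9b2a83_an
-/

namespace Pool.Agent.Helper71.SN.PkFQ2

open Pool.Agent.Helper71.SN Pool.Agent.Helper39.Net

theorem pow_bound (d b L : ℕ) (hd : 2 ≤ d) (hL : 1 ≤ L) (hb : (L + d) ^ (2 * d) ≤ b) :
    ((b : ℝ) + 1) ^ L ≤ 3 * (b : ℝ) ^ L := by
  have hLb : L ≤ b := by
    have h1 : L + d ≤ (L + d) ^ (2 * d) := Nat.le_self_pow (by omega) _
    omega
  have hb0 : (0 : ℝ) < b := by
    have : 0 < b := by omega
    exact_mod_cast this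
  have e : ((b : ℝ) + 1) = b * (1 + 1 / b) := by
    field_simp
  rw [e, mul_pow]
  have h1 : (1 + 1 / (b : ℝ)) ^ L ≤ 3 := by
    have h2 : 1 + 1 / (b : ℝ) ≤ Real.exp (1 / b) := by
      have := Real.add_one_le_exp (1 / (b : ℝ))
      linarith
    calc (1 + 1 / (b : ℝ)) ^ L ≤ Real.exp (1 / b) ^ L := by
          apply pow_le_pow_left₀ (by positivity) h2
      _ = Real.exp (L * (1 / b)) := by rw [← Real.exp_nat_mul]
      _ ≤ Real.exp 1 := by
          apply Real.exp_le_exp.2
          have : (L : ℝ) ≤ b := by exact_mod_cast hLb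
          rw [mul_one_div, div_le_one hb0]
          exact this
      _ ≤ 3 := by
          have := Real.exp_one_lt_d9
          linarith
  have h3 : (0 : ℝ) ≤ (b : ℝ) ^ L := by positivity
  nlinarith

theorem const_bound (d : ℕ) (hd : 2 ≤ d) :
    (864 : ℝ) * 2 ^ d * (d : ℝ) ^ 2 ≤ 10000 ^ d := by
  have h1 : (d : ℝ) ≤ 2 ^ d := by
    have : d < 2 ^ d := Nat.lt_two_pow_self
    exact_mod_cast this.le
  have h2 : (d : ℝ) ^ 2 ≤ 4 ^ d := by
    calc (d : ℝ) ^ 2 ≤ (2 ^ d) ^ 2 := by gcongr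
      _ = 4 ^ d := by rw [← pow_mul, mul_comm, pow_mul]; norm_num
  have h3 : (864 : ℝ) ≤ 864 ^ d := by
    calc (864 : ℝ) = 864 ^ 1 := by norm_num
      _ ≤ 864 ^ d := pow_le_pow_right₀ (by norm_num) (by omega)
  calc (864 : ℝ) * 2 ^ d * (d : ℝ) ^ 2 ≤ 864 ^ d * 2 ^ d * 4 ^ d := by gcongr
    _ = (864 * 2 * 4) ^ d := by rw [mul_pow, mul_pow]
    _ ≤ 10000 ^ d := by
        apply pow_le_pow_left₀ <;> norm_num

/-- From a bound for `b^L * L^k` to the bound for `n`. -/
theorem core (k n : ℕ) (hn : 2 ≤ n) (E : ℝ) (h1 : (n : ℝ) * Real.log n ≤ 16 * E)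
    (hlow : ∀ b L : ℕ, 1 ≤ L → (L + (k + 2)) ^ (2 * (k + 2)) ≤ b → b ^ L ≤ n →
      (b : ℝ) ^ L * (L : ℝ) ^ k ≤ 288 * 2 ^ (k + 2) * ((k : ℝ) + 2) ^ (k + 2) * E) :
    (n : ℝ) * (Real.log n / (10000 * ((k : ℝ) + 2) ^ 2 * Real.log (k + 2 + Real.log n))) ^ k ≤
      10000 ^ (k + 2) * E := by
  obtain ⟨d, hd⟩ : ∃ d, d = k + 2 := ⟨_, rfl⟩
  have hd2 : 2 ≤ d := by omega
  have hdr : ((k : ℝ) + 2) = d := by rw [hd]; push_cast; ring
  rw [hdr]
  have hd2r : (2 : ℝ) ≤ d := by exact_mod_cast hd2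
  have hnr : (2 : ℝ) ≤ n := by exact_mod_cast hn
  have hlog2 : (0.69 : ℝ) < Real.log 2 := by
    have := Real.log_two_gt_d9
    linarith
  have hlogn : Real.log 2 ≤ Real.log n := Real.log_le_log (by norm_num) hnr
  set ln := Real.log n with hln
  have hln0 : 0 < ln := by linarith
  set M := Real.log (d + ln) with hM
  have hM0 : 0 < M := Real.log_pos (by linarith)
  have hr0 : 0 ≤ ln / (10000 * (d : ℝ) ^ 2 * M) := by positivity
  -- log (x) ≤ 2 M when x ≤ (d + ln)^2
  have hlogle : ∀ x : ℝ, 0 < x → x ≤ (d + ln) ^ 2 → Real.log x ≤ 2 * M := by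
    intro x hx h
    have h2 := Real.log_le_log hx h
    rw [Real.log_pow] at h2
    push_cast at h2
    exact h2
  by_cases hH1 : (1 + d) ^ (2 * d * 1) ≤ n
  · -- the maximal `L`
    have hex : ∃ m : ℕ, 1 ≤ m ∧ ¬ (m + d) ^ (2 * d * m) ≤ n := by
      refine ⟨n, by omega, ?_⟩
      have : n + d ≤ (n + d) ^ (2 * d * n) := Nat.le_self_pow (by
        have : 0 < 2 * d * n := by positivity
        omega) _
      omega
    classical
    obtain ⟨L, hL1, hHL, hHL1⟩ : ∃ L : ℕ, 1 ≤ L ∧ (L + d) ^ (2 * d * L) ≤ n ∧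
        n < (L + 1 + d) ^ (2 * d * (L + 1)) := by
      have hs := Nat.find_spec hex
      have hm := fun j => @Nat.find_min _ _ hex j
      set m := Nat.find hex with hm0
      have hm2 : 2 ≤ m := by
        rcases Nat.lt_or_ge m 2 with h | h
        · exfalso
          have : m = 1 := by omega
          rw [this] at hs
          exact hs.2 hH1
        · exact h
      refine ⟨m - 1, by omega, ?_, ?_⟩
      · have := hm (m - 1) (by omega)
        push Not at this
        exact this (by omega)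
      · have h3 := hs.2
        push Not at h3
        have e : m - 1 + 1 = m := by omega
        rw [e]
        exact h3
    obtain ⟨b, hbn, hbn1⟩ : ∃ b : ℕ, b ^ L ≤ n ∧ n < (b + 1) ^ L := by
      have hex2 : ∃ b' : ℕ, n < b' ^ L := ⟨n + 1, by
        have : n + 1 ≤ (n + 1) ^ L := Nat.le_self_pow (by omega) _
        omega⟩
      have hs := Nat.find_spec hex2
      have hm := fun j => @Nat.find_min _ _ hex2 j
      set b' := Nat.find hex2 with hb0
      have hb1 : 1 ≤ b' := by
        rcases Nat.eq_zero_or_pos b' with h | h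
        · exfalso
          rw [h, zero_pow (by omega)] at hs
          omega
        · exact h
      refine ⟨b' - 1, ?_, ?_⟩
      · have := hm (b' - 1) (by omega)
        omega
      · have e : b' - 1 + 1 = b' := by omega
        rw [e]
        exact hs
    have hb : (L + d) ^ (2 * d) ≤ b := by
      by_contra h
      have h2 : b + 1 ≤ (L + d) ^ (2 * d) := by omega
      have h3 : (b + 1) ^ L ≤ ((L + d) ^ (2 * d)) ^ L := Nat.pow_le_pow_left h2 L
      rw [← pow_mul] at h3
      omega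
    have hE := hlow b L hL1 (by rw [← hd]; exact hb) hbn
    rw [hdr, ← hd] at hE
    have hpb := pow_bound d b L hd2 hL1 hb
    have hLr : (1 : ℝ) ≤ L := by exact_mod_cast hL1
    have hn3 : (n : ℝ) ≤ 3 * (b : ℝ) ^ L := by
      have : (n : ℝ) ≤ ((b : ℝ) + 1) ^ L := by exact_mod_cast hbn1.le
      linarith
    have hLd : (n : ℝ) * ((L : ℝ) / d) ^ k ≤ 10000 ^ d * E := by
      have hd0 : (0 : ℝ) < (d : ℝ) ^ k := by positivity
      have hc := const_bound d hd2
      have hE0 : 0 ≤ E := by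
        have : 0 ≤ (n : ℝ) * ln := by positivity
        linarith
      rw [div_pow, ← mul_div_assoc, div_le_iff₀ hd0]
      calc (n : ℝ) * (L : ℝ) ^ k ≤ 3 * (b : ℝ) ^ L * (L : ℝ) ^ k := by gcongr
        _ = 3 * ((b : ℝ) ^ L * (L : ℝ) ^ k) := by ring
        _ ≤ 3 * (288 * 2 ^ d * (d : ℝ) ^ d * E) := by linarith
        _ = (864 * 2 ^ d * (d : ℝ) ^ 2) * E * (d : ℝ) ^ k := by
            have : (d : ℝ) ^ d = (d : ℝ) ^ 2 * (d : ℝ) ^ k := by
              rw [← pow_add]
              congr 1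
              omega
            rw [this]
            ring
        _ ≤ 10000 ^ d * E * (d : ℝ) ^ k := by gcongr
    rw [← hd]
    refine le_trans ?_ hLd
    have hr : ln / (10000 * (d : ℝ) ^ 2 * M) ≤ (L : ℝ) / d := by
      have hd0 : (0 : ℝ) < d := by linarith
      rw [div_le_div_iff₀ (by positivity) hd0]
      -- log n < 2 d (L+1) log (L+1+d)
      have a1 : ln ≤ 2 * d * (L + 1) * Real.log (L + 1 + d) := by
        have : (n : ℝ) ≤ ((L : ℝ) + 1 + d) ^ (2 * d * (L + 1)) := by exact_mod_cast hHL1.le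
        have h2 := Real.log_le_log (by linarith) this
        rw [Real.log_pow] at h2
        push_cast at h2
        exact h2
      have a2 : (L : ℝ) ≤ ln := by
        have h3 : (2 : ℝ) ^ (2 * d * L) ≤ n := by
          have : 2 ^ (2 * d * L) ≤ (L + d) ^ (2 * d * L) := Nat.pow_le_pow_left (by omega) _
          exact_mod_cast this.trans hHL
        have h4 := Real.log_le_log (by positivity) h3
        rw [Real.log_pow] at h4
        push_cast at h4
        have h5 : (L : ℝ) ≤ 2 * d * L * Real.log 2 := by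
          have : (1 : ℝ) ≤ 2 * d * Real.log 2 := by nlinarith
          nlinarith
        linarith
      have a3 : Real.log (L + 1 + d) ≤ 2 * M := by
        apply hlogle _ (by positivity)
        nlinarith
      have a4 : ln ≤ 8 * d * L * M := by
        calc ln ≤ 2 * d * (L + 1) * Real.log (L + 1 + d) := a1
          _ ≤ 2 * d * (L + 1) * (2 * M) := by gcongr
          _ ≤ 2 * d * (L + L) * (2 * M) := by gcongr
          _ = 8 * d * L * M := by ring
      calc ln * d ≤ 8 * d * L * M * d := by gcongr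
        _ = 8 * (L * (d ^ 2 * M)) := by ring
        _ ≤ 10000 * (L * (d ^ 2 * M)) := by
            have : 0 ≤ (L : ℝ) * (d ^ 2 * M) := by positivity
            linarith
        _ = L * (10000 * d ^ 2 * M) := by ring
    gcongr
  · -- small n
    have hlt : n < (1 + d) ^ (2 * d) := by
      rw [mul_one] at hH1
      omega
    have a1 : ln ≤ 2 * d * Real.log (1 + d) := by
      have : (n : ℝ) ≤ (1 + (d : ℝ)) ^ (2 * d) := by exact_mod_cast hlt.le
      have h2 := Real.log_le_log (by linarith) this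
      rw [Real.log_pow] at h2
      push_cast at h2
      exact h2
    have a2 : Real.log (1 + d) ≤ 2 * M := by
      apply hlogle _ (by positivity)
      nlinarith
    have hr : ln / (10000 * (d : ℝ) ^ 2 * M) ≤ 1 := by
      rw [div_le_one (by positivity)]
      calc ln ≤ 2 * d * Real.log (1 + d) := a1
        _ ≤ 2 * d * (2 * M) := by gcongr
        _ = 4 * (d * 1 * M) := by ring
        _ ≤ 4 * (d * d * M) := by gcongr; linarith
        _ ≤ 10000 * (d * d * M) := by
            have : 0 ≤ (d : ℝ) * d * M := by positivity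
            linarith
        _ = 10000 * (d : ℝ) ^ 2 * M := by ring
    have hrk : (ln / (10000 * (d : ℝ) ^ 2 * M)) ^ k ≤ 1 := pow_le_one₀ hr0 hr
    have hnE : (n : ℝ) ≤ 24 * E := by
      have h3 : (n : ℝ) * 0.69 ≤ n * ln := by
        apply mul_le_mul_of_nonneg_left _ (by linarith)
        linarith
      linarith
    have hE0 : 0 ≤ E := by linarith
    have hA : (24 : ℝ) ≤ 10000 ^ (k + 2) := by
      calc (24 : ℝ) ≤ 10000 ^ 1 := by norm_num
        _ ≤ 10000 ^ (k + 2) := pow_le_pow_right₀ (by norm_num) (by omega)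
    calc (n : ℝ) * (ln / (10000 * (d : ℝ) ^ 2 * M)) ^ k ≤ n * 1 := by gcongr
      _ = n := mul_one _
      _ ≤ 24 * E := hnE
      _ ≤ 10000 ^ (k + 2) * E := by gcongr

theorem thm : G_LOW → G_FQ2 := by
  intro hL
  refine ⟨10000, by norm_num, fun k n hn => ⟨?_, ?_⟩⟩
  · exact core k n hn _ ((hlow_one k).2 n hn) fun b L h1 h2 h3 =>
      (hL k b L h1 h2 n h3 1 le_rfl (by norm_num)).1
  · exact core k n hn _ ((hlow_inf k).2 n hn) fun b L h1 h2 h3 =>
      (hL k b L h1 h2 n h3 1 le_rfl (by norm_num)).2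

end Pool.Agent.Helper71.SN.PkFQ2
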